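import Pool.Agent.H20.Upper61d
import Pool.Agent.H20.Lower61d
import Pool.Agent.H20.GraphA61d
import Pool.Agent.H20.Graph61dMain

/-!
# The maximal number of 0-antipodal vertex pairs of a 3-polytope

For every `n ≥ 4` the maximum `e₀(3, n)` of the number of 0-antipodal vertex pairs over all
3-polytopes with exactly `n` vertices is `⌊(n-1)(n+2)/3⌋`, except for `n = 5, 6` where it is
`10` and `14`.
-/

set_option autoImplicit false

namespace Pool.Agent.Results.MP_61d55c_co.DimThree

/-- `x` and `y` form a 0-antipodal pair of `K`: they are distinct points of `K` and some linear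
functional attains its maximum over `K` only at `x` and its minimum over `K` only at `y`. -/
def ZeroAntipodal {d : ℕ} (K : Set (Fin d → ℝ)) (x y : Fin d → ℝ) : Prop :=
  x ∈ K ∧ y ∈ K ∧ x ≠ y ∧ ∃ f : (Fin d → ℝ) →ₗ[ℝ] ℝ,
    (∀ z ∈ K, z ≠ x → f z < f x) ∧ (∀ z ∈ K, z ≠ y → f y < f z)

/-- `K` is a `d`-polytope with exactly `n` vertices: the convex hull of a finite set, with
nonempty interior and exactly `n` extreme points. -/
def IsPolytope (d n : ℕ) (K : Set (Fin d → ℝ)) : Prop :=
  (∃ S : Set (Fin d → ℝ), S.Finite ∧ K = convexHull ℝ S) ∧ (interior K).Nonempty ∧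
    (K.extremePoints ℝ).ncard = n

/-- The set of unordered pairs of vertices of `K` that are 0-antipodal pairs of `K`. -/
def antipodalPairs {d : ℕ} (K : Set (Fin d → ℝ)) : Set (Sym2 (Fin d → ℝ)) :=
  {e | ∃ x y, e = s(x, y) ∧ x ∈ K.extremePoints ℝ ∧ y ∈ K.extremePoints ℝ ∧ ZeroAntipodal K x y}

/-- The numbers of 0-antipodal vertex pairs of the `d`-polytopes with exactly `n` vertices; the
maximum of this set is `e₀(d, n)`. -/
def pairCounts (d n : ℕ) : Set ℕ :=
  {k | ∃ K : Set (Fin d → ℝ), IsPolytope d n K ∧ (antipodalPairs K).ncard = k}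

open H20

/-- The number of vertex pairs of a 3-polytope with `n` vertices that are 0-antipodal is at most
`e0val n`. -/
theorem upper {n : ℕ} (hn : 4 ≤ n) {K : Set (Fin 3 → ℝ)} (hK : H20.IsPolytope 3 n K) :
    (H20.antipodalPairs K).ncard ≤ e0val n := by
  classical
  obtain ⟨-, -, hcard⟩ := hK
  have hfin : (K.extremePoints ℝ).Finite := Set.finite_of_ncard_ne_zero (by omega)
  have hcard' : hfin.toFinset.card = n := by
    rw [← Set.ncard_eq_toFinset_card _ hfin, hcard]
  let φ := hfin.toFinset.equivFinOfCardEq hcard'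
  let v : Fin n → Fin 3 → ℝ := fun i => (φ.symm i : Fin 3 → ℝ)
  have hv_mem : ∀ i, v i ∈ K.extremePoints ℝ := fun i =>
    (Set.Finite.mem_toFinset hfin).1 (φ.symm i).2
  have hv_inj : Function.Injective v := fun i j hij => by
    have : φ.symm i = φ.symm j := Subtype.ext hij
    exact φ.symm.injective this
  have hv_surj : ∀ x ∈ K.extremePoints ℝ, ∃ i, v i = x := by
    intro x hx
    refine ⟨φ ⟨x, (Set.Finite.mem_toFinset hfin).2 hx⟩, ?_⟩
    simp [v]
  obtain ⟨q, hq1, hq2⟩ := exists_general v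
  have hgood := good_AG q hq2
  have hbound := hgood.card_edges_le_of_thA
    (fun G _ h5 h8 h9 S => theoremA G h5 h8 h9 S) (AG q) (by simpa using hn)
  rw [Fintype.card_fin] at hbound
  refine le_trans ?_ hbound
  have hsub : H20.antipodalPairs K ⊆
      (Sym2.map v) '' ((AG q).edgeFinset : Set (Sym2 (Fin n))) := by
    rintro e ⟨x, y, rfl, hx, hy, -, -, hxy, f, hf1, hf2⟩
    obtain ⟨i, rfl⟩ := hv_surj x hx
    obtain ⟨j, rfl⟩ := hv_surj y hy
    refine ⟨s(i, j), ?_, by simp⟩
    have hij : i ≠ j := fun h => hxy (by rw [h])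
    have hA : Antip v i j := ⟨hij, f,
      fun k hk => hf1 _ (extremePoints_subset (hv_mem k)) (hv_inj.ne hk),
      fun k hk => hf2 _ (extremePoints_subset (hv_mem k)) (hv_inj.ne hk)⟩
    rw [SimpleGraph.coe_edgeFinset, SimpleGraph.mem_edgeSet]
    exact hq1 i j hA
  calc (H20.antipodalPairs K).ncard
      ≤ ((Sym2.map v) '' ((AG q).edgeFinset : Set (Sym2 (Fin n)))).ncard :=
        Set.ncard_le_ncard hsub ((Finset.finite_toSet _).image _)
    _ ≤ ((AG q).edgeFinset : Set (Sym2 (Fin n))).ncard :=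
        Set.ncard_image_le (Finset.finite_toSet _)
    _ = (AG q).edgeFinset.card := Set.ncard_coe_finset _

/-- **Theorem.** For every `n ≥ 4`, the maximum number `e₀(3, n)` of 0-antipodal vertex pairs over
all 3-polytopes with exactly `n` vertices is `⌊(n-1)(n+2)/3⌋` if `n ∉ {5, 6}`; it is `10` for
`n = 5` and `14` for `n = 6`. -/
theorem result (n : ℕ) (hn : 4 ≤ n) :
    IsGreatest (pairCounts 3 n)
      (if n = 5 then 10 else if n = 6 then 14 else (n - 1) * (n + 2) / 3) := by
  change IsGreatest _ (e0val n)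
  refine ⟨?_, ?_⟩
  · obtain ⟨K, hK, h⟩ := exists_polytope n hn
    exact ⟨K, hK, le_antisymm (upper hn hK) h⟩
  · rintro k ⟨K, hK, rfl⟩
    exact upper hn hK

end Pool.Agent.Results.MP_61d55c_co.DimThree
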